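import Mathlib

set_option autoImplicit false

/-!
# Automaton groups over nonabelian finite groups contain no lamplighter group

On the words of length `n` the generator `t` of `ℤ` acts with a finite order `k > 0`, so there the lamp `x` at
position `0` acts like the lamp `x` at position `k`, which commutes with every lamp at position `0`. Hence
all lamps at position `0` commute.
-/

namespace Pool.Agent.Results.MP_e17fb9_al.NonabelianNever

/-- The map on words given by the state `a_i` of the automaton: on reading the letter `j` it outputs `i * j`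
and moves to the state `j⁻¹ * i`. -/
def act {Y : Type*} [Group Y] : Y → List Y → List Y
  | _, [] => []
  | i, j :: w => (i * j) :: act (j⁻¹ * i) w

/-- The inverse map. -/
def actInv {Y : Type*} [Group Y] : Y → List Y → List Y
  | _, [] => []
  | i, y :: w => (i⁻¹ * y) :: actInv ((i⁻¹ * y)⁻¹ * i) w

/-- The state maps as permutations of the set of words. -/
def a {Y : Type*} [Group Y] (i : Y) : Equiv.Perm (List Y) where
  toFun := act i
  invFun := actInv i
  left_inv w := by
    induction w generalizing i with
    | nil => rfl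
    | cons j w ih =>
      simp only [act, actInv, inv_mul_cancel_left]
      rw [ih]
  right_inv w := by
    induction w generalizing i with
    | nil => rfl
    | cons j w ih =>
      simp only [act, actInv, mul_inv_cancel_left]
      rw [ih]

/-- The group generated by the states of the automaton. -/
def autGroup (Y : Type*) [Group Y] : Subgroup (Equiv.Perm (List Y)) := Subgroup.closure (Set.range a)

/-- The map on words of the state `q` of an automaton whose output at every state is a left multiplication:
at the state `q` it reads `x`, outputs `g q * x` and moves to `next q x`. -/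
def run {Y Q : Type*} [Group Y] (next : Q → Y → Q) (g : Q → Y) : Q → List Y → List Y
  | _, [] => []
  | q, x :: w => (g q * x) :: run next g (next q x) w

/-- The elements of the finite state wreath power of the regular group `Y`. -/
def InWreathPower {Y : Type*} [Group Y] (f : Equiv.Perm (List Y)) : Prop :=
  ∃ (m : ℕ) (next : Fin m → Y → Fin m) (g : Fin m → Y) (q : Fin m), ∀ w, f w = run next g q w

/-- The restricted wreath product `Y ≀ ℤ`: pairs of a function from `ℤ` to `Y`, here with finite support,
and an integer (which acts by shifting), inside the unrestricted wreath product of Mathlib. -/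
def lamplighter (Y : Type*) [Group Y] : Subgroup (Y ≀ᵣ Multiplicative ℤ) where
  carrier := {w | {n | w.left n ≠ 1}.Finite}
  one_mem' := by simp
  mul_mem' := by
    intro v w hv hw
    have h1 : {n | w.left (v.right⁻¹ * n) ≠ 1}.Finite :=
      hw.preimage (mul_right_injective v.right⁻¹).injOn
    refine (hv.union h1).subset fun n hn => ?_
    by_contra h
    simp only [Set.mem_union, Set.mem_ofPred_eq, not_or, not_not] at h
    apply hn
    rw [RegularWreathProduct.mul_left, Pi.mul_apply, h.1, h.2, one_mul]
  inv_mem' := by
    intro v hv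
    have h1 : {n | v.left (v.right * n) ≠ 1}.Finite :=
      hv.preimage (mul_right_injective v.right).injOn
    refine h1.subset fun n hn h => ?_
    apply hn
    rw [RegularWreathProduct.inv_left]
    simp [h]

section

variable {Y : Type*} [Group Y]

/-- The element `x` at the position `m`. -/
def lamp (m : Multiplicative ℤ) (x : Y) : lamplighter Y :=
  ⟨⟨Pi.mulSingle m x, 1⟩, by
    refine (Set.finite_singleton m).subset fun n hn => ?_
    by_contra h
    have h1 : (Pi.mulSingle m x : Multiplicative ℤ → Y) n = 1 := by rw [Pi.mulSingle_eq_of_ne h]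
    exact hn h1⟩

/-- The shifts. -/
def shift (q : Multiplicative ℤ) : lamplighter Y :=
  ⟨⟨1, q⟩, by
    show {n | (1 : Multiplicative ℤ → Y) n ≠ 1}.Finite
    simp⟩

lemma shift_one : (shift 1 : lamplighter Y) = 1 := rfl

lemma shift_mul (p q : Multiplicative ℤ) : (shift (p * q) : lamplighter Y) = shift p * shift q := by
  apply Subtype.ext
  refine RegularWreathProduct.ext ?_ rfl
  funext n
  show (1 : Y) = 1 * 1
  rw [one_mul]

lemma shift_pow (q : Multiplicative ℤ) (k : ℕ) : (shift (q ^ k) : lamplighter Y) = shift q ^ k := by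
  induction k with
  | zero => rw [pow_zero, pow_zero, shift_one]
  | succ k ih => rw [pow_succ, pow_succ, shift_mul, ih]

lemma shift_lamp (q m : Multiplicative ℤ) (x : Y) :
    shift q * lamp m x = lamp (q * m) x * shift q := by
  apply Subtype.ext
  refine RegularWreathProduct.ext ?_ ?_
  · funext n
    show 1 * (Pi.mulSingle m x : Multiplicative ℤ → Y) (q⁻¹ * n) =
      (Pi.mulSingle (q * m) x : Multiplicative ℤ → Y) n * 1
    rw [one_mul, mul_one]
    by_cases h : n = q * m
    · subst h
      rw [inv_mul_cancel_left, Pi.mulSingle_eq_same, Pi.mulSingle_eq_same]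
    · rw [Pi.mulSingle_eq_of_ne h, Pi.mulSingle_eq_of_ne]
      intro h'
      exact h (by rw [← h', mul_inv_cancel_left])
  · show q * 1 = 1 * q
    rw [one_mul, mul_one]

lemma lamp_comm (m n : Multiplicative ℤ) (h : m ≠ n) (x y : Y) :
    lamp m x * lamp n y = lamp n y * lamp m x := by
  apply Subtype.ext
  refine RegularWreathProduct.ext ?_ rfl
  funext z
  show (Pi.mulSingle m x : Multiplicative ℤ → Y) z * (Pi.mulSingle n y : Multiplicative ℤ → Y) (1⁻¹ * z) =
    (Pi.mulSingle n y : Multiplicative ℤ → Y) z * (Pi.mulSingle m x : Multiplicative ℤ → Y) (1⁻¹ * z)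
  rw [inv_one, one_mul]
  by_cases h1 : z = m
  · have h3 : z ≠ n := fun h4 => h (h1.symm.trans h4)
    have h2 : (Pi.mulSingle n y : Multiplicative ℤ → Y) z = 1 := by rw [Pi.mulSingle_eq_of_ne h3]
    rw [h2, mul_one, one_mul]
  · have h2 : (Pi.mulSingle m x : Multiplicative ℤ → Y) z = 1 := by rw [Pi.mulSingle_eq_of_ne h1]
    rw [h2, mul_one, one_mul]

lemma lamp_cancel (x y : Y) (h : lamp 1 x * lamp 1 y = lamp 1 y * lamp 1 x) : x * y = y * x := by
  have h1 := congrArg (fun z : lamplighter Y => (z : Y ≀ᵣ Multiplicative ℤ).left 1) h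
  have h2 : ∀ x y : Y, ((lamp 1 x * lamp 1 y : lamplighter Y) : Y ≀ᵣ Multiplicative ℤ).left 1 = x * y := by
    intro x y
    show (Pi.mulSingle 1 x : Multiplicative ℤ → Y) 1 *
      (Pi.mulSingle 1 y : Multiplicative ℤ → Y) (1⁻¹ * 1) = x * y
    rw [inv_one, one_mul, Pi.mulSingle_eq_same, Pi.mulSingle_eq_same]
  simp only [h2] at h1
  exact h1

omit [Group Y] in
/-- A permutation of the words which preserves the length has a positive power which fixes all words of a
given length. -/
lemma exists_pow_fix [Finite Y] (s : Equiv.Perm (List Y)) (hs : ∀ w, (s w).length = w.length) (n : ℕ) :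
    ∃ k : ℕ, 0 < k ∧ ∀ w : List Y, w.length = n → (s ^ k) w = w := by
  have hfin : Finite {w : List Y // w.length = n} := (List.finite_length_eq Y n).to_subtype
  let σ : Equiv.Perm {w : List Y // w.length = n} := s.subtypePerm fun w => by rw [hs]
  refine ⟨orderOf σ, orderOf_pos σ, fun w hw => ?_⟩
  have h1 : ∀ k : ℕ, ((σ ^ k) ⟨w, hw⟩ : List Y) = (s ^ k) w := by
    intro k
    induction k with
    | zero => rfl
    | succ k ih =>
      rw [pow_succ', pow_succ', Equiv.Perm.mul_apply, Equiv.Perm.mul_apply, ← ih]
      rfl
  rw [← h1, pow_orderOf_eq_one]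
  rfl

/-- The lamps at one position commute in every action on words which preserves the length. -/
lemma main [Finite Y] (f : lamplighter Y →* Equiv.Perm (List Y))
    (hf : ∀ g w, (f g w).length = w.length) (x y : Y) :
    f (lamp 1 x * lamp 1 y) = f (lamp 1 y * lamp 1 x) := by
  refine Equiv.ext fun w => ?_
  let t : Multiplicative ℤ := Multiplicative.ofAdd 1
  obtain ⟨k, hk, hk'⟩ := exists_pow_fix (f (shift t)) (hf _) w.length
  have hpow : f (shift (t ^ k)) = f (shift t) ^ k := by rw [shift_pow, map_pow]
  -- the lamps at positions `0` and `k` act alike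
  have h1 : ∀ v : List Y, v.length = w.length → f (lamp (t ^ k) x) v = f (lamp 1 x) v := by
    intro v hv
    have h2 := congrArg (fun z => f z v) (shift_lamp (t ^ k) 1 x)
    simp only [map_mul, Equiv.Perm.mul_apply, mul_one] at h2
    rw [hpow, hk' v hv, hk' _ ((hf _ _).trans hv)] at h2
    exact h2.symm
  have hne : t ^ k ≠ 1 := by
    intro h
    have h2 := congrArg Multiplicative.toAdd h
    rw [toAdd_pow, toAdd_one, toAdd_ofAdd, nsmul_one] at h2
    exact hk.ne' (by exact_mod_cast h2)
  calc f (lamp 1 x * lamp 1 y) w = f (lamp 1 x) (f (lamp 1 y) w) := by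
        rw [map_mul, Equiv.Perm.mul_apply]
    _ = f (lamp (t ^ k) x) (f (lamp 1 y) w) := (h1 _ (hf _ _)).symm
    _ = f (lamp (t ^ k) x * lamp 1 y) w := by rw [map_mul, Equiv.Perm.mul_apply]
    _ = f (lamp 1 y * lamp (t ^ k) x) w := by rw [lamp_comm _ _ hne]
    _ = f (lamp 1 y) (f (lamp (t ^ k) x) w) := by rw [map_mul, Equiv.Perm.mul_apply]
    _ = f (lamp 1 y) (f (lamp 1 x) w) := by rw [h1 w rfl]
    _ = f (lamp 1 y * lamp 1 x) w := by rw [map_mul, Equiv.Perm.mul_apply]

/-- The group of the permutations which preserve the length. -/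
def lengthGroup (Y : Type*) : Subgroup (Equiv.Perm (List Y)) where
  carrier := {s | ∀ w, (s w).length = w.length}
  one_mem' := fun _ => rfl
  mul_mem' := fun {s t} hs ht w => (hs (t w)).trans (ht w)
  inv_mem' := fun {s} hs w => by
    have h1 : (s (s⁻¹ w)).length = (s⁻¹ w).length := hs (s⁻¹ w)
    have h2 : s (s⁻¹ w) = w := Equiv.apply_symm_apply s w
    rw [h2] at h1
    exact h1.symm

lemma autGroup_le : autGroup Y ≤ lengthGroup Y := by
  refine (Subgroup.closure_le _).mpr ?_
  rintro _ ⟨i, rfl⟩ w
  show (act i w).length = w.length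
  induction w generalizing i with
  | nil => rfl
  | cons j w ih => rw [act, List.length_cons, List.length_cons, ih]

lemma run_length {Q : Type*} (next : Q → Y → Q) (g : Q → Y) (q : Q) (w : List Y) :
    (run next g q w).length = w.length := by
  induction w generalizing q with
  | nil => rfl
  | cons j w ih => rw [run, List.length_cons, List.length_cons, ih]

end

/-- For a nonabelian finite group `Y` neither is the automaton group isomorphic to `Y ≀ ℤ`, nor does the
finite state wreath power of `Y` contain a copy of `Y ≀ ℤ`; and there is such a `Y`. -/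
theorem result.{u} :
    (∀ (Y : Type u) [Group Y] [Finite Y], (∃ x y : Y, x * y ≠ y * x) →
      ¬ Nonempty (autGroup Y ≃* lamplighter Y) ∧
      ¬ ∃ f : lamplighter Y →* Equiv.Perm (List Y), Function.Injective f ∧ ∀ g, InWreathPower (f g)) ∧
    ∃ (Y : Type) (_ : Group Y), Finite Y ∧ ∃ x y : Y, x * y ≠ y * x := by
  refine ⟨?_, Equiv.Perm (Fin 3), inferInstance, inferInstance, Equiv.swap 0 1, Equiv.swap 1 2, by decide⟩
  rintro Y _ _ ⟨x, y, hxy⟩
  refine ⟨?_, ?_⟩
  · rintro ⟨φ⟩
    refine hxy (lamp_cancel x y (φ.symm.injective (Subtype.ext ?_)))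
    exact main ((autGroup Y).subtype.comp φ.symm.toMonoidHom)
      (fun g w => autGroup_le (φ.symm g).2 w) x y
  · rintro ⟨f, hf, hf'⟩
    refine hxy (lamp_cancel x y (hf ?_))
    refine main f (fun g w => ?_) x y
    obtain ⟨m, next, g', q, h⟩ := hf' g
    rw [h, run_length]

end Pool.Agent.Results.MP_e17fb9_al.NonabelianNever
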